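import Pool.Agent.Helper19.PU.Defs

/-!
# Project PU, piece 1: orthogonal complex structures
-/

open MeasureTheory Set Metric Filter Module
open scoped NNReal Topology RealInnerProductSpace ENNReal Real ContDiff Manifold

namespace Pool.Agent.Helper19.PU

variable {E : Type*} [NormedAddCommGroup E] [InnerProductSpace ℝ E]

theorem CS.skew {J : E →L[ℝ] E} (hJ : CS J) (x y : E) : ⟪J x, y⟫ = -⟪x, J y⟫ := by
  have h := hJ.inner (x + y)
  rw [map_add, inner_add_left, inner_add_right, inner_add_right, hJ.inner x, hJ.inner y,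
    real_inner_comm (J x) y] at h
  linarith

theorem CS.inner_map {J : E →L[ℝ] E} (hJ : CS J) (x y : E) : ⟪J x, J y⟫ = ⟪x, y⟫ :=
  LinearIsometry.inner_map_map (⟨(J : E →ₗ[ℝ] E), hJ.norm⟩ : E →ₗᵢ[ℝ] E) x y

theorem CS.sq {J : E →L[ℝ] E} (hJ : CS J) (x : E) : J (J x) = -x := by
  refine ext_inner_right ℝ fun y => ?_
  rw [hJ.skew, hJ.inner_map, inner_neg_left]

/-- multiplication by `i` on `ℂᵏ`, as a real linear map -/
noncomputable def mulI39 (k : ℕ) : EuclideanSpace ℂ (Fin k) →ₗ[ℝ] EuclideanSpace ℂ (Fin k) where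
  toFun x := WithLp.toLp 2 fun i => Complex.I * x i
  map_add' x y := by
    ext i
    simp [mul_add]
  map_smul' r x := by
    ext i
    simp only [PiLp.smul_apply, RingHom.id_apply, Complex.real_smul]
    ring

theorem mulI39_apply (k : ℕ) (x : EuclideanSpace ℂ (Fin k)) (i : Fin k) :
    mulI39 k x i = Complex.I * x i := rfl

theorem norm_mulI39 (k : ℕ) (x : EuclideanSpace ℂ (Fin k)) : ‖mulI39 k x‖ = ‖x‖ := by
  rw [EuclideanSpace.norm_eq, EuclideanSpace.norm_eq]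
  simp only [mulI39_apply, norm_mul, Complex.norm_I, one_mul]

theorem inner_mulI39 (k : ℕ) (x : EuclideanSpace ℂ (Fin k)) : ⟪x, mulI39 k x⟫ = 0 := by
  rw [PiLp.inner_apply]
  refine Finset.sum_eq_zero fun i _ => ?_
  rw [mulI39_apply, Complex.inner]
  simp
  ring

theorem exists_CS [FiniteDimensional ℝ E] (k : ℕ) (hk : finrank ℝ E = 2 * k) :
    ∃ J : E →L[ℝ] E, CS J := by
  have h1 : finrank ℝ (EuclideanSpace ℂ (Fin k)) = 2 * k := by
    rw [LinearEquiv.finrank_eq (WithLp.linearEquiv 2 ℝ (Fin k → ℂ)), Module.finrank_pi_fintype]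
    simp [Complex.finrank_real_complex, mul_comm]
  let φ : E ≃ₗᵢ[ℝ] EuclideanSpace ℂ (Fin k) :=
    (stdOrthonormalBasis ℝ E).equiv (stdOrthonormalBasis ℝ (EuclideanSpace ℂ (Fin k)))
      (finCongr (hk.trans h1.symm))
  refine ⟨LinearMap.toContinuousLinearMap
    ((φ.symm.toLinearEquiv : EuclideanSpace ℂ (Fin k) →ₗ[ℝ] E) ∘ₗ mulI39 k ∘ₗ
      (φ.toLinearEquiv : E →ₗ[ℝ] EuclideanSpace ℂ (Fin k))), fun x => ?_, fun x => ?_⟩
  · show ‖φ.symm (mulI39 k (φ x))‖ = ‖x‖
    rw [LinearIsometryEquiv.norm_map, norm_mulI39, LinearIsometryEquiv.norm_map]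
  · show ⟪x, φ.symm (mulI39 k (φ x))⟫ = 0
    rw [← LinearIsometryEquiv.inner_map_map φ, LinearIsometryEquiv.apply_symm_apply, inner_mulI39]

end Pool.Agent.Helper19.PU
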